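import Pool.Agent.P8H15.FG.Stm2

/-!
# FG/HARM and FG/MSM (helper45)
-/

set_option autoImplicit false

namespace Pool.Agent.P8H45.FG

open Finset Filter Topology
open Pool.Agent.P8H15.FG

/-- `H_n - log n - 1/(2n)`, shifted by one -/
noncomputable def hA (n : ℕ) : ℝ :=
  ∑ m ∈ Icc 1 (n + 1), 1 / (m : ℝ) - Real.log ((n : ℝ) + 1) - 1 / (2 * ((n : ℝ) + 1))

theorem hA_step (n : ℕ) : 0 ≤ hA (n + 1) - hA n ∧
    hA (n + 1) - hA n ≤ 1 / ((n : ℝ) + 1) ^ 2 - 1 / ((n : ℝ) + 1 + 1) ^ 2 := by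
  obtain ⟨N, hN⟩ : ∃ N : ℝ, N = (n : ℝ) + 1 := ⟨_, rfl⟩
  have hN1 : 1 ≤ N := by rw [hN]; linarith [Nat.cast_nonneg (α := ℝ) n]
  have hN0 : 0 < N := by linarith
  have e : hA (n + 1) - hA n = 1 / (2 * (N + 1)) + 1 / (2 * N) - Real.log (1 + 1 / N) := by
    have h1 : Real.log (1 + 1 / N) = Real.log (N + 1) - Real.log N := by
      rw [← Real.log_div (by positivity) (by positivity)]
      congr 1
      field_simp
    unfold hA
    rw [Finset.sum_Icc_succ_top (by omega), h1]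
    push_cast
    rw [← hN]
    field_simp
    ring
  rw [e, ← hN]
  constructor
  · have h1 : 0 ≤ Real.log (1 + 1 / N) := Real.log_nonneg (by
      have : 0 < 1 / N := by positivity
      linarith)
    have h2 := Real.self_le_sinh_iff.2 h1
    rw [Real.sinh_log (by positivity)] at h2
    have h3 : (1 + 1 / N - (1 + 1 / N)⁻¹) / 2 = 1 / (2 * (N + 1)) + 1 / (2 * N) := by
      field_simp
      ring
    linarith
  · have h1 := Real.le_log_one_add_of_nonneg (x := 1 / N) (by positivity)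
    have h2 : 2 * (1 / N) / (1 / N + 2) = 2 / (2 * N + 1) := by
      field_simp
      ring
    rw [h2] at h1
    have h3 : 1 / (2 * (N + 1)) + 1 / (2 * N) - 2 / (2 * N + 1) ≤
        1 / N ^ 2 - 1 / (N + 1) ^ 2 := by
      have h4 : 1 / (2 * (N + 1)) + 1 / (2 * N) - 2 / (2 * N + 1) =
          1 / (2 * N * (N + 1) * (2 * N + 1)) := by
        field_simp
        ring
      have h5 : 1 / N ^ 2 - 1 / (N + 1) ^ 2 = (2 * N + 1) / (N ^ 2 * (N + 1) ^ 2) := by
        field_simp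
        ring
      rw [h4, h5, div_le_div_iff₀ (by positivity) (by positivity)]
      have h6 : 0 ≤ N * (N + 1) * (2 * (2 * N + 1) ^ 2 - N * (N + 1)) := by
        have : 0 ≤ 2 * (2 * N + 1) ^ 2 - N * (N + 1) := by nlinarith
        positivity
      nlinarith
    linarith

theorem hA_lim : Tendsto hA atTop (𝓝 Real.eulerMascheroniConstant) := by
  have h1 := (tendsto_add_atTop_iff_nat 1).2 Real.tendsto_eulerMascheroniSeq'
  have h2 : Tendsto (fun n : ℕ => 1 / (2 * ((n : ℝ) + 1))) atTop (𝓝 0) := by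
    have h3 := (tendsto_one_div_add_atTop_nhds_zero_nat (𝕜 := ℝ)).const_mul (1 / 2)
    rw [mul_zero] at h3
    refine h3.congr fun n => ?_
    field_simp
  have h4 := h1.sub h2
  rw [sub_zero] at h4
  refine h4.congr fun n => ?_
  unfold hA
  rw [Real.eulerMascheroniSeq', if_neg (Nat.succ_ne_zero n), harmonic_eq_sum_Icc]
  push_cast
  simp only [one_div]

theorem harm : S_HARM := by
  refine ⟨1, one_pos, fun n hn => ?_⟩
  obtain ⟨m, rfl⟩ : ∃ m, n = m + 1 := ⟨n - 1, by omega⟩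
  have hmono : Monotone hA := monotone_nat_of_le_succ fun n => by linarith [(hA_step n).1]
  have hanti : Antitone fun n : ℕ => hA n + 1 / ((n : ℝ) + 1) ^ 2 :=
    antitone_nat_of_succ_le fun n => by
      have := (hA_step n).2
      push_cast
      linarith
  have hl : Tendsto (fun n : ℕ => hA n + 1 / ((n : ℝ) + 1) ^ 2) atTop
      (𝓝 Real.eulerMascheroniConstant) := by
    have h3 := (tendsto_one_div_add_atTop_nhds_zero_nat (𝕜 := ℝ)).pow 2
    have h4 := hA_lim.add h3
    rw [zero_pow two_ne_zero, add_zero] at h4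
    refine h4.congr fun n => ?_
    rw [one_div_pow]
  have u1 := hmono.ge_of_tendsto hA_lim m
  have u2 := hanti.le_of_tendsto hl m
  change Real.eulerMascheroniConstant ≤ hA m + 1 / ((m : ℝ) + 1) ^ 2 at u2
  have e : ∑ l ∈ Icc 1 (m + 1), 1 / (l : ℝ) - (Real.log ((m + 1 : ℕ) : ℝ) +
      Real.eulerMascheroniConstant + 1 / (2 * ((m + 1 : ℕ) : ℝ))) =
      hA m - Real.eulerMascheroniConstant := by
    unfold hA
    push_cast
    ring
  rw [e, abs_le]
  push_cast
  have h0 : 0 ≤ 1 / ((m : ℝ) + 1) ^ 2 := by positivity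
  constructor <;> linarith

theorem msm : S_MSM := by
  classical
  intro ε N₁ P Q hε hP hPQ R₀
  obtain ⟨H, hH⟩ : ∃ H : ℝ, H = ∑ N ∈ range N₁, (1 : ℝ) / N := ⟨_, rfl⟩
  have hH0 : 0 ≤ H := by
    rw [hH]
    exact sum_nonneg fun N _ => by positivity
  obtain ⟨R, hR, hRP⟩ := hP (max R₀ (⌈Real.exp (H / ε)⌉₊ + 1))
  refine ⟨R, (le_max_left _ _).trans hR, ?_⟩
  have hR1 : Real.exp (H / ε) ≤ R := by
    have h1 : ⌈Real.exp (H / ε)⌉₊ ≤ R := by
      have := (le_max_right _ _).trans hR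
      omega
    exact (Nat.le_ceil _).trans (by exact_mod_cast h1)
  have hlog : H ≤ ε * Real.log R := by
    have h2 := (Real.le_log_iff_exp_le (lt_of_lt_of_le (Real.exp_pos _) hR1)).2 hR1
    rw [div_le_iff₀ hε] at h2
    linarith
  have hsub : (Icc 1 R).filter (fun N => ¬ Q N) ⊆
      range N₁ ∪ (Icc 1 R).filter (fun N => ¬ P N) := by
    intro N hN
    rw [mem_filter] at hN
    rw [mem_union, mem_range, mem_filter]
    by_cases h : N < N₁
    · exact Or.inl h
    · exact Or.inr ⟨hN.1, fun hPN => hN.2 (hPQ N (by omega) hPN)⟩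
  have h3 : ∑ N ∈ (Icc 1 R).filter (fun N => ¬ Q N), (1 : ℝ) / N ≤
      H + ∑ N ∈ (Icc 1 R).filter (fun N => ¬ P N), (1 : ℝ) / N := by
    refine (sum_le_sum_of_subset_of_nonneg hsub fun N _ _ => by positivity).trans ?_
    rw [hH, ← sum_union_inter]
    refine le_add_of_nonneg_right (sum_nonneg fun N _ => by positivity)
  have h4 : ∑ N ∈ (Icc 1 R).filter (fun N => ¬ Q N), (1 : ℝ) / N ≤ 2 * ε * Real.log R := by
    refine h3.trans ?_
    have h5 : ∑ N ∈ (Icc 1 R).filter (fun N => ¬ P N), (1 : ℝ) / N ≤ ε * Real.log R := by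
      convert hRP
    linarith
  convert h4

end Pool.Agent.P8H45.FG
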